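import Pool.Agent.H402R2.CE.All

/-!
# The least rank of a multiple of `‖z‖^(2d)`

Every nonzero polynomial multiple `R(z, conj z)` of `‖z‖^(2d)` on `ℂ^n`, written as a sum of `m`
products of a holomorphic and an antiholomorphic polynomial, has `m ≥ (n + d - 1).choose d`. The
bound is attained by a sum of squares.

Proof. Polarize: `R(z, w)` is a multiple of `(∑ z_k w_k)^d`. Order the exponent differences
`α - β ∈ ℤ^n` of the monomials `z^α w^β` lexicographically, and take the largest difference that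
occurs in `R`. The corresponding slice is a nonzero multiple `f` of `(x_1 + ... + x_n)^d`, and a
triangular minor shows that the rank is at least the number of terms of `f`. By induction on the
number of variables, and a Descartes argument in the last one, `f` has at least
`(n + d - 1).choose d` terms.
-/

open MvPolynomial

namespace Pool.Agent.Results.MP_ce7760_an.MinimalRank

/-- `SosRanks d n` is the set `S_d(n)` of all `m` such that there are `m` linearly independent
holomorphic polynomials `p 0, ..., p (m-1)` on `ℂ^n` with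
`∑ j, |p j (z)|^2 = ‖z‖^(2d) * A (z, conj z)` for a polynomial `A` in `z` and `conj z`. -/
def SosRanks (d n : ℕ) : Set ℕ :=
  {m | ∃ p : Fin m → MvPolynomial (Fin n) ℂ, LinearIndependent ℂ p ∧
    ∃ A : MvPolynomial (Fin n ⊕ Fin n) ℂ, ∀ z : Fin n → ℂ,
      ((∑ j, ‖eval z (p j)‖ ^ 2 : ℝ) : ℂ) =
        ((∑ k, ‖z k‖ ^ 2 : ℝ) : ℂ) ^ d *
          eval (Sum.elim z (fun k => (starRingEnd ℂ) (z k))) A}

/-- A nonzero polynomial multiple of `‖z‖^(2d)` on `ℂ^n` is never a sum of fewer than
`(n + d - 1).choose d` products `p_j(z) * conj (q_j(z))`, and this number belongs to `S_d(n)`. -/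
theorem result (n d : ℕ) (hn : 1 ≤ n) :
    (∀ (m : ℕ) (p q : Fin m → MvPolynomial (Fin n) ℂ) (A : MvPolynomial (Fin n ⊕ Fin n) ℂ),
      (∀ z : Fin n → ℂ, ∑ j, eval z (p j) * (starRingEnd ℂ) (eval z (q j)) =
        ((∑ k, ‖z k‖ ^ 2 : ℝ) : ℂ) ^ d * eval (Sum.elim z (fun k => (starRingEnd ℂ) (z k))) A) →
      (∃ z : Fin n → ℂ, ∑ j, eval z (p j) * (starRingEnd ℂ) (eval z (q j)) ≠ 0) →
      (n + d - 1).choose d ≤ m) ∧
    IsLeast {m | m ∈ SosRanks d n ∧ m ≠ 0} ((n + d - 1).choose d) := by
  refine ⟨fun m p q A h hne => H402.CE.lower_fun H402.CE.all3b hn p q A h hne,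
    ⟨H402.CE.all6a d n hn, (Nat.choose_pos (by omega)).ne'⟩, ?_⟩
  rintro m ⟨hm, h0⟩
  exact H402.CE.lower H402.CE.all3b hn hm h0

end Pool.Agent.Results.MP_ce7760_an.MinimalRank
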