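import Pool.Agent.H402R2.CE.Chain

/-!
# The set `S_1(n)`: ranks of sums of squares divisible by `‖z‖^2`
-/

open MvPolynomial

namespace Pool.Agent.Results.MP_ce7760_an.OneSquaredNorm

/-- `SosRanks d n` is the set `S_d(n)` of all `m` such that there are `m` linearly independent
holomorphic polynomials `p 0, ..., p (m-1)` on `ℂ^n` with
`∑ j, |p j (z)|^2 = ‖z‖^(2d) * A (z, conj z)` for a polynomial `A` in `z` and `conj z`. -/
def SosRanks (d n : ℕ) : Set ℕ :=
  {m | ∃ p : Fin m → MvPolynomial (Fin n) ℂ, LinearIndependent ℂ p ∧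
    ∃ A : MvPolynomial (Fin n ⊕ Fin n) ℂ, ∀ z : Fin n → ℂ,
      ((∑ j, ‖eval z (p j)‖ ^ 2 : ℝ) : ℂ) =
        ((∑ k, ‖z k‖ ^ 2 : ℝ) : ℂ) ^ d *
          eval (Sum.elim z (fun k => (starRingEnd ℂ) (z k))) A}

/-- For `n ≥ 2` the set `S_1(n)` contains all `k n - c` with `0 ≤ c < k` (hence all
`m > (n - 1)^2`), and `S_1(3)` is determined up to the single number `4`. -/
theorem result :
    (∀ n k c : ℕ, 2 ≤ n → c < k → k * n - c ∈ SosRanks 1 n) ∧
    (∀ n m : ℕ, 2 ≤ n → (n - 1) ^ 2 < m → m ∈ SosRanks 1 n) ∧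
    ∀ m : ℕ, m ≠ 4 → (m ∈ SosRanks 1 3 ↔ m = 0 ∨ m = 3 ∨ 5 ≤ m) := by
  refine ⟨fun n k c hn hc => H402.CE.chain_mem n k c hn hc,
    fun n m hn hm => H402.CE.conductor_one n m hn hm, fun m hm => ⟨fun h => ?_, ?_⟩⟩
  · by_cases h0 : m = 0
    · exact Or.inl h0
    · have h3 : (3 + 1 - 1).choose 1 ≤ m :=
        H402.CE.lower H402.CE.all3b (by norm_num) h h0
      simp at h3
      omega
  · rintro (rfl | rfl | h5)
    · exact H402.CE.zero_mem 1 3
    · exact H402.CE.chain_mem 3 1 0 (by norm_num) (by norm_num)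
    · exact H402.CE.conductor_one 3 m (by norm_num) (by omega)

end Pool.Agent.Results.MP_ce7760_an.OneSquaredNorm
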