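import Pool.Agent.H402R2.CE.All

/-!
# `S_d(n)` is a numerical semigroup
-/

open MvPolynomial

namespace Pool.Agent.Results.MP_ce7760_an.Semigroup

/-- `SosRanks d n` is the set `S_d(n)` of all `m` such that there are `m` linearly independent
holomorphic polynomials `p 0, ..., p (m-1)` on `ℂ^n` with
`∑ j, |p j (z)|^2 = ‖z‖^(2d) * A (z, conj z)` for a polynomial `A` in `z` and `conj z`. -/
def SosRanks (d n : ℕ) : Set ℕ :=
  {m | ∃ p : Fin m → MvPolynomial (Fin n) ℂ, LinearIndependent ℂ p ∧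
    ∃ A : MvPolynomial (Fin n ⊕ Fin n) ℂ, ∀ z : Fin n → ℂ,
      ((∑ j, ‖eval z (p j)‖ ^ 2 : ℝ) : ℂ) =
        ((∑ k, ‖z k‖ ^ 2 : ℝ) : ℂ) ^ d *
          eval (Sum.elim z (fun k => (starRingEnd ℂ) (z k))) A}

/-- With `N = (n + d - 1).choose d`: `S_d(n)` is closed under addition, contains all
`2 N - (n + j - 1).choose j` with `j < d` (for `n ≥ 2`) and all `m ≥ 2 (N - 1)^2`. -/
theorem result (n d : ℕ) (hn : 1 ≤ n) :
    ∃ M : AddSubmonoid ℕ, (M : Set ℕ) = SosRanks d n ∧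
      (∀ j < d, 2 ≤ n → 2 * (n + d - 1).choose d - (n + j - 1).choose j ∈ M) ∧
      ∀ m, 2 * ((n + d - 1).choose d - 1) ^ 2 ≤ m → m ∈ M :=
  H402.CE.semigroup H402.CE.all4 H402.CE.all6a H402.CE.all6b H402.CE.all7 n d hn

end Pool.Agent.Results.MP_ce7760_an.Semigroup
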