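import Pool.Agent.H402R2.CE.All

/-!
# The sets `S_d(1)` and `S_d(2)` for all `d`
-/

open MvPolynomial

namespace Pool.Agent.Results.MP_ce7760_an.UpToTwoVariables

/-- `SosRanks d n` is the set `S_d(n)` of all `m` such that there are `m` linearly independent
holomorphic polynomials `p 0, ..., p (m-1)` on `ℂ^n` with
`∑ j, |p j (z)|^2 = ‖z‖^(2d) * A (z, conj z)` for a polynomial `A` in `z` and `conj z`. -/
def SosRanks (d n : ℕ) : Set ℕ :=
  {m | ∃ p : Fin m → MvPolynomial (Fin n) ℂ, LinearIndependent ℂ p ∧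
    ∃ A : MvPolynomial (Fin n ⊕ Fin n) ℂ, ∀ z : Fin n → ℂ,
      ((∑ j, ‖eval z (p j)‖ ^ 2 : ℝ) : ℂ) =
        ((∑ k, ‖z k‖ ^ 2 : ℝ) : ℂ) ^ d *
          eval (Sum.elim z (fun k => (starRingEnd ℂ) (z k))) A}

/-- For every `d`, all ranks occur in one variable, and in two variables exactly the ranks `0`
and `m ≥ d + 1` occur. -/
theorem result (d : ℕ) :
    SosRanks d 1 = Set.univ ∧ SosRanks d 2 = {m | m = 0 ∨ d + 1 ≤ m} :=
  ⟨H402.CE.S_one H402.CE.all4 H402.CE.all6a d,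
    H402.CE.S_two H402.CE.all3b H402.CE.all4 H402.CE.all6a H402.CE.all6b d⟩

end Pool.Agent.Results.MP_ce7760_an.UpToTwoVariables
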